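import Mathlib
import Pool.Agent.H19.NilUniv

set_option autoImplicit false

namespace Pool.Agent.Results.MP_734462_al.CountableFields

universe u v

/-- Over a countable field `F`, every nil algebra `A` of countable dimension misses some nil
algebra `B` of countable dimension among its homomorphic images. -/
theorem result (F : Type u) [Field F] [Countable F]
    (A : Type v) [NonUnitalRing A] [Module F A] [IsScalarTower F A A] [SMulCommClass F A A]
    (hnil : ∀ a : A, ∃ n : ℕ, (fun x : A => a * x)^[n] a = 0)
    (hdim : Module.rank F A ≤ Cardinal.aleph0) :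
    ∃ (B : Type u) (_ : NonUnitalRing B) (_ : Module F B) (_ : IsScalarTower F B B)
      (_ : SMulCommClass F B B),
      (∀ b : B, ∃ n : ℕ, (fun x : B => b * x)^[n] b = 0) ∧
      Module.rank F B ≤ Cardinal.aleph0 ∧
      ∀ f : A →ₙₐ[F] B, ¬ Function.Surjective f :=
  Pool.Agent.H19.GS.no_universal F A
    (fun a => (hnil a).elim fun n hn => Pool.Agent.H19.GS.fd_of_nil a n hn) hdim

end Pool.Agent.Results.MP_734462_al.CountableFields
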